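import Mathlib
import Pool.Agent.H715R2.Uncountable

/-! # Counterexamples come in families of continuum size -/

open Filter Topology Matrix Cardinal

namespace H208

open H715R2

variable {d : ℕ}

/-- The set of values at integer points, as a point of a countable product. -/
noncomputable def Phi (h : Matrix (Fin d) (Fin d) ℝ) : (Fin d → ℤ) → ℝ := fun m => FF h (iR m)

instance : Countable (Matrix (Fin d) (Fin d) ℤ) :=
  inferInstanceAs (Countable (Fin d → Fin d → ℤ))

lemma continuous_Phi : Continuous (Phi (d := d)) :=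
  continuous_pi fun m => continuous_FF (iR m)

/-- Every countable family of forms misses a form of the minimal set. -/
theorem misses (hd : 3 ≤ d) {g : Matrix (Fin d) (Fin d) ℝ} (hg : g.det ≠ 0) {ν : ℝ}
    (hν : 0 < ν) (hnu : HasNu g ν) (hint : ¬ PropInt g)
    {M : Set (Matrix (Fin d) (Fin d) ℝ)}
    (hMg : M ⊆ closure (Orb g)) (hMc : IsClosed M) (hMne : M.Nonempty) (hMinv : H715R2.Inv M)
    (hMmin : ∀ Y ⊆ M, IsClosed Y → Y.Nonempty → H715R2.Inv Y → Y = M)
    (C : Set ((Fin d → ℤ) → ℝ)) (hC : C.Countable) : ∃ g' ∈ M, Phi g' ∉ C := by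
  classical
  by_contra hcon
  push Not at hcon
  refine hint (core hd hg hν hnu hMg hMc hMne hMinv hMmin
    (⋃ m : Fin d → ℤ, (fun F : (Fin d → ℤ) → ℝ => F m) '' C)
    (Set.countable_iUnion fun m => hC.image _) ?_)
  intro h hh m
  exact Set.mem_iUnion.2 ⟨m, Phi h, hcon h hh, rfl⟩

/-- A map from a set of the size of the continuum with countable fibres has large image. -/
theorem exists_injection_of_countable_fibers {Q : Type} (p : (ℕ → Bool) → Q)
    (hp : ∀ s, {t | p t = p s}.Countable) :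
    ∃ f : (ℕ → Bool) → (ℕ → Bool), ∀ s t, s ≠ t → p (f s) ≠ p (f t) := by
  classical
  let R := Set.range p
  have hR : #(ℕ → Bool) ≤ #R := by
    by_contra hlt
    push Not at hlt
    have h1 : #(ℕ → Bool) = #(Σ q : R, {t : ℕ → Bool // (⟨p t, t, rfl⟩ : R) = q}) :=
      mk_congr (Equiv.sigmaFiberEquiv (fun t : ℕ → Bool => (⟨p t, t, rfl⟩ : R))).symm
    have hc : #(ℕ → Bool) = 𝔠 := by simp
    have h2 : #(Σ q : R, {t : ℕ → Bool // (⟨p t, t, rfl⟩ : R) = q}) ≤ #R * ℵ₀ := by
      rw [mk_sigma]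
      refine (sum_le_sum _ (fun _ => ℵ₀) ?_).trans ?_
      · rintro ⟨q, s, rfl⟩
        have h3 : ({t : ℕ → Bool | (⟨p t, t, rfl⟩ : R) = ⟨p s, s, rfl⟩}).Countable := by
          refine (hp s).mono ?_
          intro t ht
          exact congrArg Subtype.val ht
        exact h3.le_aleph0
      · rw [sum_const']
    have h3 : #R * ℵ₀ < #(ℕ → Bool) := by
      refine mul_lt_of_lt ?_ hlt ?_
      · rw [hc]; exact aleph0_le_continuum
      · rw [hc]; exact aleph0_lt_continuum
    exact absurd (h1.le.trans h2) (not_le.2 h3)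
  obtain ⟨e⟩ := hR
  choose σ hσ using fun s => (e s).2
  refine ⟨σ, fun s t hst h => hst ?_⟩
  rw [hσ, hσ] at h
  exact e.injective (Subtype.ext h)

theorem continuum (hd : 3 ≤ d) {g : Matrix (Fin d) (Fin d) ℝ} (hg : g.det ≠ 0) {ν : ℝ}
    (hν : 0 < ν) (hnu : HasNu g ν) (hint : ¬ PropInt g) :
    ∃ f : (ℕ → Bool) → Matrix (Fin d) (Fin d) ℝ,
      (∀ s, f s ∈ closure (Orb g) ∧ HasNu (f s) ν ∧ ¬ PropInt (f s) ∧ ¬ (VV (f s)).Countable) ∧
      (∀ s t, nuInf (f s) = nuInf (f t) ∧ VV (f s) = VV (f t) ∧ f s ∈ closure (Orb (f t))) ∧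
      ∀ s t, s ≠ t → ∀ (γ : Matrix (Fin d) (Fin d) ℤ) (c : ℝ), IsUnit γ.det →
        ∃ x : Fin d → ℤ, FF (f s) (iR x) ≠ c * FF (f t) (iR (γ *ᵥ x)) := by
  classical
  have hd0 : 0 < d := by omega
  obtain ⟨M, hMg, hMc, hMne, hMinv, hMmin⟩ := exists_minimal hd0 hν hg hnu
  have hnint : ∀ g' ∈ M, ¬ PropInt g' := by
    intro g' hg' hP
    refine hint (core hd hg hν hnu hMg hMc hMne hMinv hMmin _ (countable_VV hP) ?_)
    intro h hh m
    exact mem_VV_of_mem_closure (by rw [closure_orb_eq hMc hMinv hMmin hg']; exact hh) m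
  have hnVV : ∀ g' ∈ M, ¬ (VV g').Countable := by
    intro g' hg' hP
    refine hint (core hd hg hν hnu hMg hMc hMne hMinv hMmin _ hP ?_)
    intro h hh m
    exact mem_VV_of_mem_closure (by rw [closure_orb_eq hMc hMinv hMmin hg']; exact hh) m
  obtain ⟨g₁, hg₁⟩ := id hMne
  have hμM : ∀ g' ∈ M, nuInf g' = nuInf g₁ := by
    intro g' hg'
    apply le_antisymm
    · exact nuInf_le_of_mem_closure hd0 (by rw [closure_orb_eq hMc hMinv hMmin hg']; exact hg₁)
    · exact nuInf_le_of_mem_closure hd0 (by rw [closure_orb_eq hMc hMinv hMmin hg₁]; exact hg')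
  have hμ0 : 0 < nuInf g₁ := hν.trans_le (le_nuInf hd0 (hasNu_closure hnu (hMg hg₁)))
  -- a compact piece with uncountable image
  obtain ⟨R, hR⟩ : ∃ R : ℕ, ¬ (Phi '' (M ∩ {h : Matrix (Fin d) (Fin d) ℝ |
      ∀ i j, |h i j| ≤ (R : ℝ)})).Countable := by
    by_contra hcon
    push Not at hcon
    obtain ⟨g', hg', hmiss⟩ := misses hd hg hν hnu hint hMg hMc hMne hMinv hMmin _
      (Set.countable_iUnion hcon)
    apply hmiss
    obtain ⟨R, hR⟩ := exists_nat_ge (∑ i, ∑ j, |g' i j|)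
    refine Set.mem_iUnion.2 ⟨R, g', ⟨hg', fun i j => ?_⟩, rfl⟩
    refine le_trans ?_ hR
    refine le_trans ?_ (Finset.single_le_sum (f := fun i => ∑ j, |g' i j|)
      (fun i _ => Finset.sum_nonneg fun j _ => abs_nonneg _) (Finset.mem_univ i))
    exact Finset.single_le_sum (f := fun j => |g' i j|) (fun j _ => abs_nonneg _)
      (Finset.mem_univ j)
  have hcomp : IsCompact (Phi '' (M ∩ {h : Matrix (Fin d) (Fin d) ℝ |
      ∀ i j, |h i j| ≤ (R : ℝ)})) := by
    refine IsCompact.image ?_ continuous_Phi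
    exact (isCompact_box (R : ℝ)).inter_left hMc
  obtain ⟨u, hu, -, huinj⟩ := hcomp.isClosed.exists_nat_bool_injection_of_not_countable hR
  choose w hwM hwu using fun s => hu ⟨s, rfl⟩
  have hwM' : ∀ s, w s ∈ M := fun s => (hwM s).1
  -- equivalence relation
  let rel : (ℕ → Bool) → (ℕ → Bool) → Prop := fun s t =>
    ∃ (γ : Matrix (Fin d) (Fin d) ℤ) (c : ℝ), IsUnit γ.det ∧
      ∀ x : Fin d → ℤ, FF (w s) (iR x) = c * FF (w t) (iR (γ *ᵥ x))
  have hone : ∃ x : Fin d → ℤ, x ≠ 0 := ⟨fun _ => 1, fun h => one_ne_zero (congrFun h ⟨0, hd0⟩)⟩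
  have hcabs : ∀ s t (γ : Matrix (Fin d) (Fin d) ℤ) (c : ℝ), IsUnit γ.det →
      (∀ x : Fin d → ℤ, FF (w s) (iR x) = c * FF (w t) (iR (γ *ᵥ x))) → |c| = 1 := by
    intro s t γ c hγ heq
    have h1 := nuInf_equiv hd0 hγ heq
    rw [hμM _ (hwM' s), hμM _ (hwM' t)] at h1
    have h2 : (|c| - 1) * nuInf g₁ = 0 := by linarith
    rcases mul_eq_zero.1 h2 with h3 | h3
    · linarith
    · exact absurd h3 hμ0.ne'
  have hequiv : Equivalence rel := by
    refine ⟨fun s => ⟨1, 1, by simp, fun x => by simp⟩, ?_, ?_⟩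
    · rintro s t ⟨γ, c, hγ, heq⟩
      have hc := hcabs s t γ c hγ heq
      have hc0 : c ≠ 0 := by
        intro h0
        rw [h0, abs_zero] at hc
        exact zero_ne_one hc
      refine ⟨γ⁻¹, c⁻¹, ?_, fun x => ?_⟩
      · exact Matrix.isUnit_nonsing_inv_det γ hγ
      · rw [heq, mulVec_mulVec, Matrix.mul_nonsing_inv _ hγ, one_mulVec, ← mul_assoc,
          inv_mul_cancel₀ hc0, one_mul]
    · rintro s t r ⟨γ, c, hγ, heq⟩ ⟨δ, b, hδ, heq2⟩
      refine ⟨δ * γ, c * b, ?_, fun x => ?_⟩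
      · rw [det_mul]; exact hδ.mul hγ
      · rw [heq, heq2, mulVec_mulVec, mul_assoc]
  let S : Setoid (ℕ → Bool) := ⟨rel, hequiv⟩
  obtain ⟨φ, hφ⟩ := exists_injection_of_countable_fibers (Q := Quotient S)
    (fun s => Quotient.mk S s) (by
      intro s
      have h1 : {t | Quotient.mk S t = Quotient.mk S s} ⊆
          ⋃ (p : Matrix (Fin d) (Fin d) ℤ × Bool), {t | ∀ x : Fin d → ℤ, u t x =
            (if p.2 then 1 else -1) * FF (w s) (iR (p.1 *ᵥ x))} := by
        intro t ht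
        obtain ⟨γ, c, hγ, heq⟩ : rel t s := Quotient.exact ht
        have hc := hcabs t s γ c hγ heq
        rcases abs_choice c with h2 | h2
        · refine Set.mem_iUnion.2 ⟨(γ, true), fun x => ?_⟩
          rw [← hwu]
          show FF (w t) (iR x) = _
          rw [heq]
          have : c = 1 := by rw [← h2, hc]
          simp [this]
        · refine Set.mem_iUnion.2 ⟨(γ, false), fun x => ?_⟩
          rw [← hwu]
          show FF (w t) (iR x) = _
          rw [heq]
          have : c = -1 := by rw [← neg_eq_iff_eq_neg, ← h2, hc]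
          simp [this]
      refine Set.Countable.mono h1 (Set.countable_iUnion fun p => ?_)
      refine Set.Subsingleton.countable ?_
      intro t ht t' ht'
      apply huinj
      funext x
      rw [ht x, ht' x])
  have hin : ∀ s t, w s ∈ closure (Orb (w t)) := fun s t => by
    rw [closure_orb_eq hMc hMinv hMmin (hwM' t)]; exact hwM' s
  refine ⟨fun s => w (φ s), fun s => ⟨hMg (hwM' _), hasNu_closure hnu (hMg (hwM' _)),
    hnint _ (hwM' _), hnVV _ (hwM' _)⟩, fun s t => ⟨?_, ?_, hin _ _⟩, ?_⟩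
  · rw [hμM _ (hwM' _), hμM _ (hwM' _)]
  · exact Set.Subset.antisymm (VV_subset (hin _ _)) (VV_subset (hin _ _))
  intro s t hst γ c hγ
  by_contra hcon
  push Not at hcon
  exact hφ s t hst (Quotient.sound (s := S) ⟨γ, c, hγ, hcon⟩)

end H208
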